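import Mathlib
import Pool.Agent.N732.GS.Count

set_option autoImplicit false

/-!
# Uniform Hardy–Littlewood asymptotics, with the true singular series, in growing-sieve random models

Sequential random models `S` of the primes, sieved by a GROWING set of small primes (as in the
Cramér–Granville model), with no independence: the integers are decided one after the other; an integer
`n` of the dyadic block `[2^j, 2^(j+1))` can be chosen only if no prime of `P j` divides it, where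
`∑ p ∈ P j, log p = o(j)` and `P j` contains all the primes up to `(log j)^4` (for instance the primes up
to `(log j)^4`, or up to `o(log n)`), and the conditional probability of choosing such an `n`, given the
past, is `~ ∏ p ∈ P j, (1 - 1/p)⁻¹ / log n`.
-/

open MeasureTheory Filter
open scoped Topology

namespace Pool.Agent.Results.MP_1039f5_nt.GrowingSieve

/-- the number of residue classes modulo `p` containing an element of `H` -/
def nu (H : Finset ℕ) (p : ℕ) : ℕ := (H.image (· % p)).card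

/-- the singular series of `H` -/
noncomputable def sing (H : Finset ℕ) : ℝ :=
  ∏' p : Nat.Primes, (1 - (nu H p : ℝ) / ((p : ℕ) : ℝ)) / (1 - 1 / ((p : ℕ) : ℝ)) ^ H.card

/-- the number of `n ≤ x` such that `n + h ∈ S` for all `h ∈ H` -/
noncomputable def tupCount (S : Set ℕ) (H : Finset ℕ) (x : ℕ) : ℕ :=
  {n : ℕ | 1 ≤ n ∧ n ≤ x ∧ ∀ h ∈ H, n + h ∈ S}.ncard

/-- `π₃(x, d', d)` with `S` in place of the primes: the number of `m ≤ x` with `m`, `m - d'`, `m - d` in `S` -/
noncomputable def pi3 (S : Set ℕ) (x d' d : ℕ) : ℕ :=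
  {m : ℕ | d < m ∧ m ≤ x ∧ m ∈ S ∧ m - d' ∈ S ∧ m - d ∈ S}.ncard

end Pool.Agent.Results.MP_1039f5_nt.GrowingSieve

open Pool.Agent.Results.MP_1039f5_nt.GrowingSieve

/-- Let `A n` be the event that `n` belongs to a random set `S`, adapted to a filtration `ℱ`, with the
sieving sets `P` and the conditional probabilities as in the header.  Almost surely, for all `k`, `C`,
uniformly over the sets `H` of `k` integers of `[0, (log x)^C]` with nonzero singular series `𝔖(H)`,
`#{n ≤ x : n + h ∈ S for all h ∈ H} ~ 𝔖(H) x / (log x)^k`; and the normalised count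
`R(x; d', d) = π₃(x, d', d) (log x)^3 / (𝔖({0, d', d}) x)` of the problem tends to `1` uniformly over
`0 < d' < d ≤ (log x)^C` with `𝔖({0, d', d}) ≠ 0`. -/
theorem Pool.Agent.Results.MP_1039f5_nt.GrowingSieve.result
    {Ω : Type} [mΩ : MeasurableSpace Ω] (μ : Measure Ω) [IsProbabilityMeasure μ]
    (ℱ : Filtration ℕ mΩ) (A : ℕ → Set Ω) (hA : ∀ n, MeasurableSet[ℱ n] (A n))
    (P : ℕ → Finset ℕ) (hP : ∀ j, ∀ p ∈ P j, p.Prime)
    (hgrowth : Tendsto (fun j : ℕ => (∑ p ∈ P j, Real.log p) / j) atTop (𝓝 0))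
    (hsmall : ∀ᶠ j : ℕ in atTop, ∀ p : ℕ, p.Prime → (p : ℝ) ≤ Real.log j ^ 4 → p ∈ P j)
    (hcop : ∀ n, (∃ p ∈ P (Nat.log 2 n), p ∣ n) → A n = ∅)
    (hd : ∀ᵐ ω ∂μ, ∀ ε : ℝ, 0 < ε → ∀ᶠ n : ℕ in atTop, (∀ p ∈ P (Nat.log 2 (n + 1)), ¬ p ∣ n + 1) →
      |(μ[(A (n + 1)).indicator (fun _ => (1 : ℝ)) | ℱ n]) ω * Real.log ((n : ℝ) + 1) *
        ∏ p ∈ P (Nat.log 2 (n + 1)), (1 - 1 / (p : ℝ)) - 1| ≤ ε) :
    ∀ᵐ ω ∂μ,
      (∀ k C : ℕ, ∀ ε : ℝ, 0 < ε → ∀ᶠ x : ℕ in atTop, ∀ H : Finset ℕ, H.card = k →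
        (∀ h ∈ H, (h : ℝ) ≤ Real.log x ^ C) → sing H ≠ 0 →
        |(tupCount {n : ℕ | ω ∈ A n} H x : ℝ) * Real.log x ^ k / (sing H * x) - 1| ≤ ε) ∧
      (∀ C : ℕ, ∀ ε : ℝ, 0 < ε → ∀ᶠ x : ℕ in atTop, ∀ d' d : ℕ, 0 < d' → d' < d →
        (d : ℝ) ≤ Real.log x ^ C → sing {0, d', d} ≠ 0 →
        |(pi3 {n : ℕ | ω ∈ A n} x d' d : ℝ) * Real.log x ^ 3 / (sing {0, d', d} * x) - 1| ≤ ε) := by
  classical
  have hW : Tendsto (fun j : ℕ => Real.log (∏ p ∈ P j, p : ℕ) / j) atTop (𝓝 0) := by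
    refine hgrowth.congr fun j => ?_
    rw [Nat.cast_prod, Real.log_prod]
    intro p hp
    exact_mod_cast (hP j p hp).ne_zero
  have hdens := Pool.Agent.N732.GS.dens_growing (μ := μ) (ℱ := ℱ) (A := A) P hP hW hcop (fun ε _ => ε) hd
  filter_upwards [Pool.Agent.N732.GS.tuples_asymp (μ := μ) hA P hP hW hsmall hdens] with ω hω
  have hsing : ∀ H, sing H = Pool.Agent.N732.GS.sing H := fun H => rfl
  refine ⟨fun k C ε hε => ?_, fun C ε hε => ?_⟩
  · obtain ⟨c, hc0, hc⟩ := Pool.Agent.N732.GS.sing_lower k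
    filter_upwards [hω k C ε hε] with x hx H hHk hH hne
    rw [hsing] at hne ⊢
    have h1 := hx H hH hHk hne
    rw [Pool.Agent.N732.GS.TN_eq] at h1
    have hSp : 0 < Pool.Agent.N732.GS.sing H := lt_of_lt_of_le hc0 (hc H hHk hne)
    have e1 : (tupCount {n : ℕ | ω ∈ A n} H x : ℝ) * Real.log x ^ k / (Pool.Agent.N732.GS.sing H * x) - 1 =
        ((Pool.Agent.N732.GS.tupCount {n : ℕ | ω ∈ A n} H x : ℝ) * (Real.log x ^ k / x) - Pool.Agent.N732.GS.sing H) /
          Pool.Agent.N732.GS.sing H := by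
      rw [sub_div, div_self hSp.ne', mul_div_assoc', div_div, mul_comm (x : ℝ)]
      rfl
    rw [e1, abs_div, abs_of_pos hSp, div_le_iff₀ hSp]
    exact h1
  · obtain ⟨c, hc0, hc⟩ := Pool.Agent.N732.GS.sing_lower 3
    have hll : ∀ᶠ x : ℕ in atTop, 1 ≤ Real.log (Real.log (x : ℝ)) :=
      (Real.tendsto_log_atTop.comp Pool.Agent.R528.RM.tendsto_log).eventually_ge_atTop 1
    filter_upwards [hω 3 C (ε / 2) (by positivity), Pool.Agent.N732.GS.log_small (C + 3) (show 0 < c * ε / 2 by positivity),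
      Pool.Agent.R528.RM.tendsto_log.eventually_ge_atTop 1, hll] with x hx hx2 hx3 hx4 d' d hd0 hdd hdx hne
    rw [hsing] at hne ⊢
    set H : Finset ℕ := {0, d', d} with hHdef
    have hHk : H.card = 3 := by
      rw [hHdef, Finset.card_insert_of_notMem, Finset.card_insert_of_notMem, Finset.card_singleton]
      · simp; omega
      · simp; omega
    have hHd : ∀ h ∈ H, h ≤ d := by
      intro h hh
      rw [hHdef] at hh
      simp only [Finset.mem_insert, Finset.mem_singleton] at hh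
      omega
    have hne' : Pool.Agent.N732.GS.sing (H.image (fun h => d - h)) ≠ 0 := by
      rw [Pool.Agent.N732.GS.sing_reflect H d hHd]
      exact hne
    have h1 := hx (H.image (fun h => d - h)) (by
      intro h hh
      obtain ⟨g, hg, rfl⟩ := Finset.mem_image.1 hh
      refine le_trans ?_ hdx
      exact_mod_cast Nat.sub_le d g) (by rw [Pool.Agent.N732.GS.card_reflect H d hHd]; exact hHk) hne'
    rw [Pool.Agent.N732.GS.TN_eq] at h1
    have h2 : (d : ℝ) * (Real.log x ^ 3 / x) ≤ c * ε / 2 := by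
      have hl0 : 0 ≤ Real.log (x : ℝ) ^ 3 / x := by
        have := Real.log_natCast_nonneg x
        positivity
      calc (d : ℝ) * (Real.log x ^ 3 / x) ≤ Real.log x ^ C * (Real.log x ^ 3 / x) := mul_le_mul_of_nonneg_right hdx hl0
        _ = Real.log x ^ (C + 3) / x := by ring
        _ ≤ c * ε / 2 / (Real.log (Real.log x)) ^ 2 := hx2
        _ ≤ c * ε / 2 := div_le_self (by positivity) (one_le_pow₀ hx4)
    have h3 := Pool.Agent.N732.GS.shift_law (S := {n : ℕ | ω ∈ A n}) (H := H) (d := d) (x := x) (k := 3) hHk hHd hc0 (hc H hHk hne) hε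
      (by linarith) h1 h2
    have e1 : {m : ℕ | d < m ∧ m ≤ x ∧ ∀ h ∈ H, m - h ∈ {n : ℕ | ω ∈ A n}} =
        {m : ℕ | d < m ∧ m ≤ x ∧ m ∈ {n : ℕ | ω ∈ A n} ∧ m - d' ∈ {n : ℕ | ω ∈ A n} ∧ m - d ∈ {n : ℕ | ω ∈ A n}} := by
      ext m
      simp [hHdef]
    rw [e1] at h3
    exact h3
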