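import Mathlib
import Pool.Agent.N732.Stern.Unique

/-!
Stern polynomials at prime indices are irreducible over the rationals.
-/

set_option autoImplicit false
open Polynomial

/-- Let `B_n(t) ∈ ℤ[t]` be the Stern polynomials, i.e. `B_0 = 0`, `B_1 = 1`, `B_{2n} = t B_n` and
`B_{2n+1} = B_n + B_{n+1}` for `n ≥ 1`.  For every prime `p` the polynomial `B_p(t)` is irreducible
in `ℚ[t]`. -/
theorem Pool.Agent.Results.MP_201fbb_nt.IrreducibleAtPrimes.result
    (B : ℕ → ℤ[X]) (h0 : B 0 = 0) (h1 : B 1 = 1)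
    (he : ∀ n : ℕ, 1 ≤ n → B (2 * n) = X * B n)
    (ho : ∀ n : ℕ, 1 ≤ n → B (2 * n + 1) = B n + B (n + 1)) :
    ∀ p : ℕ, p.Prime → Irreducible ((B p).map (Int.castRingHom ℚ)) := by
  intro p hp
  rw [Pool.Agent.N732.Stern.unique_stern B h0 h1 he ho p]
  exact Pool.Agent.N732.Stern.stern_irreducible hp
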