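import Mathlib
import Pool.Agent.N732.Stern.Rat

/-!
The rational roots of the Stern polynomials are exactly `-1, -1/2, -1/3, 0`.
-/

set_option autoImplicit false
open Polynomial

/-- Let `B_n(t) ∈ ℤ[t]` be the Stern polynomials, i.e. `B_0 = 0`, `B_1 = 1`, `B_{2n} = t B_n` and
`B_{2n+1} = B_n + B_{n+1}` for `n ≥ 1`.  The set of rational numbers `a` with `B_n(a) = 0` for some
`n ≥ 1` is `{-1, -1/2, -1/3, 0}`. -/
theorem Pool.Agent.Results.MP_32086b_nt.RationalRoots.result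
    (B : ℕ → ℤ[X]) (h0 : B 0 = 0) (h1 : B 1 = 1)
    (he : ∀ n : ℕ, 1 ≤ n → B (2 * n) = X * B n)
    (ho : ∀ n : ℕ, 1 ≤ n → B (2 * n + 1) = B n + B (n + 1)) :
    {a : ℚ | ∃ n : ℕ, 1 ≤ n ∧ aeval a (B n) = 0} = {-1, -1 / 2, -1 / 3, 0} := by
  have h : B = Pool.Agent.N732.Stern.sternPoly :=
    funext (Pool.Agent.N732.Stern.unique_stern B h0 h1 he ho)
  rw [h]
  exact Pool.Agent.N732.Stern.rational_roots
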