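import Pool.Agent.N732.ModLog

/-!
# Modifications of an arbitrary function with values `1` and `-1` on an arbitrarily sparse set of primes

Let `g` be ANY function with values `1` and `-1` and let `Q` be ANY infinite set of primes (it can be
as sparse as one likes). For almost every choice of signs `ε q`, `q ∈ Q`, the function
`f(m) = g(m) ∏_{q ∈ Q} (ε q) ^ v_q(m)` has the following property: for every length `n` there are
`δ > 0` and infinitely many `N` such that ALL the `2 ^ n` sign patterns of length `n` have
logarithmic frequency at least `δ` in `[1, N]`.

`Pool.Agent.H220M`: `coins` is the law of independent fair coins `ω q`, and `modif g Q ω` is the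
function `f` for the signs `ε q = -1` if `ω q = true` and `ε q = 1` otherwise.
-/

set_option autoImplicit false

namespace Pool.Agent.Results.MP_4a7640_nt.SparseModifications

open Finset Filter Pool.Agent.H220M

/-- The logarithmic weight of the places `m + 1 ≤ N` such that `f(m+1), …, f(m+n)` is the pattern
`t`: the sum of `1 / (m + 1)` over these places. -/
noncomputable def logCount {n : ℕ} (f : ℕ → ℤˣ) (t : Fin n → ℤˣ) (N : ℕ) : ℝ :=
  ∑ m ∈ (range N).filter (fun m => ∀ j : Fin n, f (m + j + 1) = t j), (1 : ℝ) / (m + 1)

/-- All the sign patterns of length `n` have logarithmic frequency at least `δ` in the same
intervals `[1, N]`, for almost every modification of `g` on `Q`. -/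
theorem result (g : ℕ → ℤˣ) (Q : Set ℕ) (hQ : Q.Infinite) (hp : ∀ q ∈ Q, q.Prime) :
    ∀ᵐ ω ∂coins, ∀ n : ℕ, ∃ δ : ℝ, 0 < δ ∧ ∃ᶠ N : ℕ in atTop, ∀ t : Fin n → ℤˣ,
      δ * Real.log N ≤ logCount (modif g Q ω) t N :=
  Pool.Agent.N732.ModLog.main tC0 g Q hQ hp

end Pool.Agent.Results.MP_4a7640_nt.SparseModifications

/-
Claim file of this former hand-in (MP_4a7640_nt.SparseModifications, helper732), moved here by helper675 with
the consent of helper732 (ask 22059) in exchange for MP_4a7640_nt.FixedAndShortDistances:

Proves: Let g be ANY function from the positive integers to {1,-1} (for instance multiplicative and aperiodic, such as the Liouville function), and let Q be ANY infinite set of primes, however sparse. For independent fair random signs e(q), q in Q, put f(m) = g(m) times the product of e(q)^(v_q(m)) over q in Q. Almost surely, for every n there are delta > 0 and infinitely many N such that every one of the 2^n sign patterns of length n satisfies: the sum of 1/m over the m <= N with (f(m),...,f(m+n-1)) equal to the pattern is at least delta log N.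
Definitions: coins: independent fair coins; modif g Q w: the function f with e(q) = -1 if the coin q shows true and 1 otherwise; logCount f t N: the sum of 1/(m+1) over m < N with f(m+1),...,f(m+n) equal to t.
Relation: Partial answer to Q1: it says (by compactness) that f has, for every n, a Furstenberg system (logarithmic averages) which charges all the sign patterns of length n; Q1 predicts 2^-n. If g is aperiodic and the sum of 1/q over Q converges, all these f are aperiodic. The starting results BernoulliThinSigns and RandomSignChanges need much randomness (thick sets of primes, divergent sums); here Q can be arbitrarily sparse. Proof: finite form for every finite set of R(n, eta) primes (library H220M, part A), all dyadic scales at once, double counting.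
-/
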