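import Mathlib
import Pool.Agent.TH881.RQ.Wrap

/-! The natural numbers `k` such that `G(m) + k` (for instance `m ^ 3 + k`) is prime for some `m` in a
set `A` of positive relative lower density among the natural numbers or among the primes, `G` any
polynomial of degree at least two: the exact minimal density, for all sets `A` of a given density. -/

set_option autoImplicit false

namespace Pool.Agent.Results.MP_4d57ea_nt.DenseCubeArguments
open Finset Filter Topology Polynomial

open Classical in
/-- The number of elements of `S` in `[1, x]`. -/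
noncomputable def count (S : Set ℕ) (x : ℕ) : ℕ := ((Icc 1 x).filter (fun n => n ∈ S)).card

/-- The lower asymptotic density. -/
noncomputable def lowerDensity (S : Set ℕ) : ℝ := liminf (fun x : ℕ => (count S x : ℝ) / x) atTop

/-- The arguments: the primes if `pr` is true, all natural numbers otherwise. -/
def args (pr : Bool) : Set ℕ := {n | pr = true → n.Prime}

/-- The lower density of the set of the arguments in `A`, relative to the set of all arguments. -/
noncomputable def relLower (pr : Bool) (A : Set ℕ) : ℝ :=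
  liminf (fun x : ℕ => (count {n | n ∈ args pr ∧ n ∈ A} x : ℝ) / (count {n | n ∈ args pr} x : ℝ)) atTop

/-- The natural numbers `k` such that `G(m) + k` is a prime `p` for some argument `m ∈ A`. -/
def shifts (pr : Bool) (G : ℤ[X]) (A : Set ℕ) : Set ℕ :=
  {k | ∃ m p : ℕ, m ∈ args pr ∧ m ∈ A ∧ p.Prime ∧ G.eval (m : ℤ) + k = p}

/-- `F(β)`: the infimum of the lower densities of `shifts pr G A` for the sets `A` of relative lower
density at least `β`. -/
noncomputable def F (pr : Bool) (G : ℤ[X]) (β : ℝ) : ℝ :=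
  sInf {d | ∃ A : Set ℕ, β ≤ relLower pr A ∧ d = lowerDensity (shifts pr G A)}

/-- The product of the primes up to `w`. -/
def P (w : ℕ) : ℕ := ∏ p ∈ (Icc 1 w).filter Nat.Prime, p

instance (w : ℕ) : NeZero (P w) := ⟨(Pool.Agent.TH881.Wp_pos w).ne'⟩

open Classical in
/-- The residue classes of the arguments modulo `P w`: the units for prime arguments, else all. -/
noncomputable def classes (pr : Bool) (w : ℕ) : Finset (ZMod (P w)) :=
  univ.filter (fun a => pr = true → IsUnit a)

open Classical in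
/-- The residue classes `t` modulo `P w` such that `G(a) + t` is a unit for some `a ∈ B`. -/
noncomputable def unitShifts (G : ℤ[X]) (w : ℕ) (B : Finset (ZMod (P w))) : Finset (ZMod (P w)) :=
  univ.filter (fun t => ∃ a ∈ B, IsUnit ((G.map (Int.castRingHom (ZMod (P w)))).eval a + t))

/-- The local minimum: the infimum of `|{t : G(a) + t is a unit for some a ∈ B}| / P w` over all `w`
and all sets `B` of at least the proportion `β` of the residue classes of the arguments modulo `P w`. -/
noncomputable def localF (pr : Bool) (G : ℤ[X]) (β : ℝ) : ℝ := sInf {d | ∃ w : ℕ, ∃ B ⊆ classes pr w,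
  β * (classes pr w).card ≤ B.card ∧ d = ((unitShifts G w B).card : ℝ) / P w}

open Pool.Agent.TH881.RQ in
lemma hit_eq (pr : Bool) (G : ℤ[X]) (A : Set ℕ) : hit pr G 1 A = shifts pr G A := by
  ext N
  constructor
  · rintro ⟨n, hn, hA, hp⟩
    refine ⟨n, _, hn, hA, hp, ?_⟩
    have h1 := hp.pos
    generalize G.eval (n : ℤ) = y at h1 ⊢
    omega
  · rintro ⟨n, p, hn, hA, hp, h⟩
    refine ⟨n, hn, hA, ?_⟩
    have h2 : (N : ℤ) + 1 * G.eval (n : ℤ) = p := by
      rw [← h]
      ring
    rw [h2, Int.toNat_natCast]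
    exact hp

open Pool.Agent.TH881.RQ in
lemma F_eq (pr : Bool) (G : ℤ[X]) (β : ℝ) : F pr G β = FFq pr G 1 β := by
  unfold F FFq
  congr 1
  ext d
  constructor
  · rintro ⟨A, h1, h2⟩
    refine ⟨A, h1, ?_⟩
    rw [hit_eq]
    exact h2
  · rintro ⟨A, h1, h2⟩
    refine ⟨A, h1, ?_⟩
    rw [hit_eq] at h2
    exact h2

open Pool.Agent.TH881 Pool.Agent.TH881.RQ in
lemma gd_iff' (G : ℤ[X]) (w : ℕ) (t a : ZMod (Wp w)) :
    gd G 1 w t a ↔ IsUnit ((G.map (Int.castRingHom (ZMod (Wp w)))).eval a + t) := by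
  unfold gd gv
  have h2 : t + ((1 : ℤ) : ZMod (Wp w)) * (G.map (Int.castRingHom (ZMod (Wp w)))).eval a =
      (G.map (Int.castRingHom (ZMod (Wp w)))).eval a + t := by
    push_cast
    ring
  rw [h2]

open Pool.Agent.TH881 Pool.Agent.TH881.RQ in
open Classical in
lemma sumq_eq (G : ℤ[X]) (w : ℕ) (B : Finset (ZMod (Wp w))) : sumq G 1 w B =
    univ.filter (fun t => ∃ a ∈ B, IsUnit ((G.map (Int.castRingHom (ZMod (Wp w)))).eval a + t)) := by
  unfold sumq
  apply filter_congr
  intro t _
  constructor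
  · rintro ⟨a, ha, h⟩
    exact ⟨a, ha, (gd_iff' G w t a).1 h⟩
  · rintro ⟨a, ha, h⟩
    exact ⟨a, ha, (gd_iff' G w t a).2 h⟩

open Pool.Agent.TH881 Pool.Agent.TH881.RQ in
lemma unitShifts_eq (G : ℤ[X]) (w : ℕ) (B : Finset (ZMod (Wp w))) :
    ((unitShifts G w B).card : ℝ) / P w = ((sumq G 1 w B).card : ℝ) / Wp w := by
  rw [sumq_eq]
  rfl

open Pool.Agent.TH881 Pool.Agent.TH881.RG Pool.Agent.TH881.RQ in
lemma localF_eq (pr : Bool) (G : ℤ[X]) (β : ℝ) : localF pr G β = Flocq pr G 1 β := by
  unfold localF Flocq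
  congr 1
  ext d
  constructor
  · rintro ⟨w, B, h0, h1, h2⟩
    exact ⟨w, B, h0, h1, h2.trans (unitShifts_eq G w B)⟩
  · rintro ⟨w, B, h0, h1, h2⟩
    exact ⟨w, B, h0, h1, h2.trans (unitShifts_eq G w B).symm⟩

/-- Let `G` be an integer polynomial of degree at least `2` with positive leading coefficient. For both
kinds of arguments, `F(β)` is equal to the local minimum for `0 < β < 1`, and `log log (1 / β) F(β)`
tends to `e ^ (-γ)` as `β` tends to `0` from above. -/
theorem result (pr : Bool) (G : ℤ[X]) (hd : 2 ≤ G.natDegree) (hl : 0 < G.leadingCoeff) :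
    (∀ β : ℝ, 0 < β → β < 1 → F pr G β = localF pr G β) ∧
    Tendsto (fun β : ℝ => Real.log (Real.log (1 / β)) * F pr G β) (𝓝[>] 0)
      (𝓝 (Real.exp (-Real.eulerMascheroniConstant))) := by
  refine ⟨?_, ?_⟩
  · intro β h0 h1
    rw [F_eq, localF_eq]
    exact Pool.Agent.TH881.RQ.formula pr G hd hl 1 (Or.inl rfl) β h0 h1
  · simp only [F_eq]
    exact Pool.Agent.TH881.RQ.law_zero pr G hd hl 1 (Or.inl rfl)

end Pool.Agent.Results.MP_4d57ea_nt.DenseCubeArguments
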